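import Mathlib

set_option autoImplicit false

namespace Pool.Agent.Results.MP_1fe8eb_co.Const

open Finset Classical

section
variable {V : Type} [DecidableEq V]

/-- expectation over a random subset -/
noncomputable def Ex (x : ℝ) (A : Finset V) (F : Finset V → ℝ) : ℝ :=
  ∑ S ∈ A.powerset, x ^ S.card * (1 - x) ^ (A.card - S.card) * F S

omit [DecidableEq V] in
theorem Ex_empty (x : ℝ) (F : Finset V → ℝ) : Ex x ∅ F = F ∅ := by simp [Ex]

theorem Ex_insert (x : ℝ) {a : V} {A : Finset V} (h : a ∉ A) (F : Finset V → ℝ) :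
    Ex x (insert a A) F = (1 - x) * Ex x A F + x * Ex x A fun S => F (insert a S) := by
  simp only [Ex, sum_powerset_insert h, mul_sum, card_insert_of_notMem h]
  congr 1 <;> refine sum_congr rfl fun S e => ?_
  · rw [Nat.sub_add_comm (card_le_card (mem_powerset.1 e))]
    ring
  · rw [card_insert_of_notMem fun k => h (mem_powerset.1 e k), Nat.add_sub_add_right]
    ring

omit [DecidableEq V] in
theorem Ex_lin (x a b : ℝ) (A : Finset V) (F G : Finset V → ℝ) :
    Ex x A (fun S => a * F S + b * G S) = a * Ex x A F + b * Ex x A G := by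
  simp only [Ex, mul_sum, ← sum_add_distrib]
  exact sum_congr rfl fun _ _ => by ring

omit [DecidableEq V] in
theorem Ex_add (x : ℝ) (A : Finset V) (F G : Finset V → ℝ) :
    Ex x A (fun S => F S + G S) = Ex x A F + Ex x A G := by simpa using Ex_lin x 1 1 A F G

omit [DecidableEq V] in
theorem Ex_mul (x a : ℝ) (A : Finset V) (F : Finset V → ℝ) :
    Ex x A (fun S => a * F S) = a * Ex x A F := by simpa using Ex_lin x a 0 A F F

omit [DecidableEq V] in
theorem Ex_mono {x : ℝ} (h0 : 0 ≤ x) (h1 : x ≤ 1) (A : Finset V) {F G : Finset V → ℝ}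
    (h : ∀ S ⊆ A, F S ≤ G S) : Ex x A F ≤ Ex x A G :=
  sum_le_sum fun S e => mul_le_mul_of_nonneg_left (h S (mem_powerset.1 e))
    (mul_nonneg (pow_nonneg h0 _) (pow_nonneg (sub_nonneg.2 h1) _))

omit [DecidableEq V] in
theorem Ex_congr (x : ℝ) (A : Finset V) {F G : Finset V → ℝ}
    (h : ∀ S ⊆ A, F S = G S) : Ex x A F = Ex x A G :=
  sum_congr rfl fun S e => by rw [h S (mem_powerset.1 e)]

theorem Ex_const (x c : ℝ) (A : Finset V) : Ex x A (fun _ => c) = c := by
  induction A using Finset.induction_on with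
  | empty => simp [Ex]
  | insert a A h ih =>
    rw [Ex_insert x h, ih]
    ring

theorem Ex_union (x : ℝ) (A B : Finset V) (h : Disjoint A B) (F : Finset V → ℝ) :
    Ex x (A ∪ B) F = Ex x A fun I => Ex x B fun J => F (I ∪ J) := by
  induction A using Finset.induction_on generalizing F with
  | empty => simp [Ex_empty]
  | insert a A k ih =>
    rw [disjoint_insert_left] at h
    rw [insert_union, Ex_insert x (by simp [k, h.1]), Ex_insert x k, ih h.2, ih h.2]
    simp only [insert_union]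

theorem thin (y r : ℝ) (A : Finset V) (F : Finset V → ℝ) :
    Ex (1 - (1 - y) * (1 - r)) A F = Ex y A fun I => Ex r A fun J => F (I ∪ J) := by
  induction A using Finset.induction_on generalizing F with
  | empty => simp [Ex_empty]
  | insert a A k ih =>
    simp only [Ex_insert _ k, ih, Ex_lin, insert_union, union_insert, insert_idem]
    ring

theorem single (r : ℝ) (A : Finset V) (q : V) (h : q ∈ A) :
    Ex r A (fun J => if q ∈ J then 0 else 1) = 1 - r := by
  rw [← insert_erase h, Ex_insert r (notMem_erase _ _), Ex_congr r _ (G := fun _ => 1)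
    fun S e => if_neg fun k => by simpa using e k]
  simp [Ex_const]

/-- children with inactive parent -/
def D (K : Finset V) (p : V → V) (I : Finset V) : ℝ := ∑ v ∈ K, if p v ∈ I then 0 else 1

theorem ED (K P : Finset V) (p : V → V) (h : ∀ v ∈ K, p v ∈ P) (r : ℝ) (I : Finset V) :
    Ex r P (fun J => D K p (I ∪ J)) = (1 - r) * D K p I := by
  simp only [Ex, D, mul_sum]
  rw [sum_comm]
  refine sum_congr rfl fun v e => ?_
  by_cases k : p v ∈ I
  · simp [k]
  · simpa [k, Ex] using single r P _ (h v e)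

theorem D_anti (K : Finset V) (p : V → V) (I J : Finset V) :
    0 ≤ D K p (I ∪ J) ∧ D K p (I ∪ J) ≤ D K p I :=
  ⟨sum_nonneg fun _ _ => by split_ifs <;> norm_num, sum_le_sum fun v _ => by
    by_cases k : p v ∈ I
    · simp [k]
    · split_ifs <;> norm_num⟩

/-- centred sum -/
def Z (x : ℝ) (a : V → ℝ) (W J : Finset V) : ℝ :=
  ∑ v ∈ W, a v * (2 * x - if v ∈ J then 2 else 0)

theorem mom {x : ℝ} (h0 : 0 ≤ x) (h1 : x ≤ 1) (a : V → ℝ) (ha : ∀ v, a v = 0 ∨ a v = 1)
    (W : Finset V) : Ex x W (fun J => Z x a W J ^ 1) = 0 ∧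
      Ex x W (fun J => Z x a W J ^ 2) = 4 * x * (1 - x) * ∑ v ∈ W, a v ∧
      Ex x W (fun J => Z x a W J ^ 4) ≤ 4 * (∑ v ∈ W, a v) ^ 2 := by
  induction W using Finset.induction_on with
  | empty => simp [Ex_empty, Z]
  | insert w W k ih =>
    obtain ⟨i1, i2, i3⟩ := ih
    have e1 : ∀ S ⊆ W, Z x a (insert w W) S = Z x a W S + a w * (2 * x) := fun S h => by
      simp [Z, sum_insert k, show w ∉ S from fun e => k (h e), add_comm]
    have e2 : ∀ S ⊆ W, Z x a (insert w W) (insert w S) = Z x a W S + a w * (2 * x - 2) :=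
      fun S h => by
        simp only [Z, sum_insert k, mem_insert, true_or, if_true, add_comm]
        congr 1
        exact sum_congr rfl fun v e => by simp [show v ≠ w from fun l => k (l ▸ e)]
    have e3 : ∀ c (m : ℕ), Ex x W (fun S => (Z x a W S + c) ^ m) =
        ∑ i ∈ range (m + 1), c ^ (m - i) * m.choose i * Ex x W fun S => Z x a W S ^ i := by
      intro c m
      simp only [add_pow, Ex, mul_sum]
      rw [sum_comm]
      exact sum_congr rfl fun _ _ => sum_congr rfl fun _ _ => by ring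
    have e4 : ∀ m : ℕ, Ex x (insert w W) (fun S => Z x a (insert w W) S ^ m) =
        (1 - x) * Ex x W (fun S => (Z x a W S + a w * (2 * x)) ^ m) +
          x * Ex x W fun S => (Z x a W S + a w * (2 * x - 2)) ^ m := fun m => by
      rw [Ex_insert x k, Ex_congr x W fun S h => by rw [e1 S h],
        Ex_congr x W (F := fun S => Z x a (insert w W) (insert w S) ^ m) fun S h => by rw [e2 S h]]
    have p0 : 0 ≤ ∑ v ∈ W, a v := sum_nonneg fun v _ => by rcases ha v with e | e <;> simp [e]
    have q : 0 ≤ x * (1 - x) := mul_nonneg h0 (sub_nonneg.2 h1)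
    have q' : x * (1 - x) ≤ 1 / 4 := by nlinarith [sq_nonneg (x - 1 / 2)]
    simp only [sum_insert k, e4, e3, sum_range_succ, sum_range_zero, pow_zero, Ex_const, i1, i2]
    generalize (Ex x W fun S => Z x a W S ^ 3) = m3 at *
    generalize (Ex x W fun S => Z x a W S ^ 4) = m4 at *
    generalize ∑ v ∈ W, a v = d at *
    rcases ha w with e | e <;> norm_num [e, Nat.choose]
    · exact ⟨by ring, by linarith⟩
    · refine ⟨by ring, by ring, ?_⟩
      nlinarith [mul_le_mul_of_nonneg_right q' p0, sq_nonneg (x * (1 - x))]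

theorem pt1 (z m : ℝ) (h : 0 < m) : max (|z| - m) 0 ≤ 1 / (4 * m) * z ^ 2 := by
  refine max_le ?_ (by positivity)
  rw [one_div_mul_eq_div, le_div_iff₀ (by positivity), ← sq_abs z]
  nlinarith [sq_nonneg (|z| - 2 * m)]

theorem pt2 (z m s : ℝ) (h : 0 ≤ m) (hs : 0 < s) :
    max (|z| - m) 0 ≤ 8 / (s + m) ^ 3 * z ^ 4 + 8 / (s + m) ^ 3 * s ^ 4 := by
  refine max_le ?_ (by positivity)
  rw [← mul_add, div_mul_eq_mul_div, le_div_iff₀ (by positivity), ← Even.pow_abs (by decide) z]
  generalize |z| = w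
  rcases le_total w m with k | k
  · exact (mul_nonpos_of_nonpos_of_nonneg (by linarith) (by positivity)).trans (by positivity)
  · have : (w - m) * (s + m) ^ 3 ≤ (s + w) * (s + w) ^ 3 := by
      gcongr <;> linarith
    nlinarith [sq_nonneg (s ^ 2 - w ^ 2), sq_nonneg (s - w), sq_nonneg (s + w),
      mul_nonneg (sq_nonneg (s - w)) (sq_nonneg (s + w)), sq_nonneg ((s - w) ^ 2)]

/-- integrable majorant -/
noncomputable def H (d δ : ℝ) : ℝ := 136 * (√d / (1 + δ * √d) ^ 2)

theorem inner {x δ : ℝ} (h0 : 0 ≤ x) (h1 : x ≤ 1) (hδ : 0 < δ) (a : V → ℝ)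
    (ha : ∀ v, a v = 0 ∨ a v = 1) (W : Finset V) (d : ℝ) (hd : d = ∑ v ∈ W, a v) :
    Ex x W (fun J => max (|Z x a W J| - 2 * δ * d) 0) ≤ (1 - x) / (2 * δ) ∧
    ∀ e, e ≤ 2 * d → d ≤ 2 * e → Ex x W (fun J => max (|Z x a W J| - 2 * δ * d) 0) ≤ H e δ := by
  obtain ⟨-, m2, m4⟩ := mom h0 h1 a ha W
  rw [← hd] at m2 m4
  have a0 : ∀ v ∈ W, 0 ≤ a v := fun v _ => by rcases ha v with e | e <;> simp [e]
  have := sub_nonneg.2 h1
  rcases (hd ▸ sum_nonneg a0 : 0 ≤ d).eq_or_lt with rfl | d0
  · have : ∀ J, Z x a W J = 0 := fun J => sum_eq_zero fun v e => by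
      rw [(sum_eq_zero_iff_of_nonneg a0).1 hd.symm v e, zero_mul]
    simp only [this, abs_zero, mul_zero, sub_zero, max_self, Ex_const, H]
    exact ⟨by positivity, fun _ _ _ => by positivity⟩
  refine ⟨(Ex_mono h0 h1 W fun J _ => pt1 _ _ (by positivity)).trans ?_, fun e e1 e2 => ?_⟩
  · rw [Ex_mul, m2]
    field_simp
    nlinarith
  · have s0 : 0 < √e := Real.sqrt_pos.2 (by linarith)
    have s1 := Real.sq_sqrt (show 0 ≤ e by linarith)
    refine (Ex_mono h0 h1 W fun J _ => pt2 _ _ √e (by positivity) s0).trans ?_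
    rw [Ex_add, Ex_mul, Ex_const, H, ← mul_add]
    generalize √e = s at *
    subst s1
    calc _ ≤ 8 / (s + 2 * δ * d) ^ 3 * (17 * s ^ 4) := by
          gcongr
          nlinarith
      _ ≤ 8 / (s + δ * s ^ 2) ^ 3 * (17 * s ^ 4) := by
          gcongr 8 / (s + ?_) ^ 3 * _
          nlinarith
      _ = 136 * (s / (1 + δ * s) ^ 3) := by
          field_simp
          ring
      _ ≤ _ := by
          gcongr
          · nlinarith [mul_pos hδ s0]
          · norm_num

/-- total drift -/
def X (K : Finset V) (p : V → V) (S : Finset V) : ℝ :=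
  ∑ v ∈ K, if p v ∈ S then 0 else if v ∈ S then -1 else 1

theorem pw (g b h d e : ℝ) (h1 : g ≤ b) (h2 : 0 ≤ b) (h3 : 0 ≤ h) (h4 : 0 ≤ e) (h5 : e ≤ d)
    (h6 : d ≤ 2 * e → g ≤ h) : g ≤ 1 * h + 2 * b * (d⁻¹ * (d - e)) := by
  by_cases k : d ≤ 2 * e
  · have : 0 ≤ 2 * b * (d⁻¹ * (d - e)) :=
      mul_nonneg (by linarith) (mul_nonneg (inv_nonneg.2 (by linarith)) (by linarith))
    linarith [h6 k]
  · have : 1 / 2 ≤ d⁻¹ * (d - e) := by
      rw [inv_mul_eq_div, le_div_iff₀ (by linarith)]
      linarith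
    nlinarith

theorem outer (P W K : Finset V) (p : V → V) (hd : Disjoint P W) (hK : K ⊆ W)
    (hp : ∀ v ∈ K, p v ∈ P) {x δ : ℝ} (h0 : 0 < x) (h1 : x < 1) (hδ : 0 < δ)
    (hx : x = 1 / 2 - δ ∨ x = 1 / 2 + δ) : Ex x (P ∪ W) (fun S => max (X K p S) 0) ≤
      (1 - x) * (max (1 - 2 * x) 0 * K.card + 2 + 4 * Ex (1 / 2) P fun I => H (D K p I) δ) := by
  let a : Finset V → V → ℝ := fun I v => if v ∈ K then if p v ∈ I then 0 else 1 else 0
  have a1 : ∀ I v, a I v = 0 ∨ a I v = 1 := fun I v => by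
    simp only [a]
    split_ifs <;> simp
  have a2 : ∀ (I : Finset V) (f : V → ℝ), ∑ v ∈ W, a I v * f v =
      ∑ v ∈ K, (if p v ∈ I then 0 else 1) * f v := fun I f => by
    rw [← sum_subset hK fun v _ e => by simp [a, e]]
    exact sum_congr rfl fun v e => by simp [a, e]
  have a3 : ∀ I, D K p I = ∑ v ∈ W, a I v := fun I => by simpa [D] using (a2 I 1).symm
  let g : Finset V → ℝ := fun I =>
    Ex x W fun J => max (|Z x (a I) W J| - 2 * δ * D K p I) 0
  have g1 := fun I => inner h0.le h1.le hδ _ (a1 I) W _ (a3 I)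
  have d0 : ∀ I, 0 ≤ D K p I := fun I => by simpa using (D_anti K p I I).1
  have H0 : ∀ d, 0 ≤ H d δ := fun d => by
    rw [H]
    positivity
  have s1 : ∀ I ⊆ P, Ex x W (fun J => max (X K p (I ∪ J)) 0) ≤
      max (1 - 2 * x) 0 * D K p (∅ ∪ I) + 1 * g I := fun I hI => by
    have xe : ∀ J ⊆ W, X K p (I ∪ J) = (1 - 2 * x) * D K p I + Z x (a I) W J := fun J hJ => by
      rw [Z, a2, D, mul_sum, ← sum_add_distrib]
      refine sum_congr rfl fun v e => ?_
      have : p v ∉ J := fun k => disjoint_left.1 hd (hp v e) (hJ k)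
      have : v ∉ I := fun k => disjoint_left.1 hd (hI k) (hK e)
      simp only [mem_union, *, or_false, false_or]
      split_ifs <;> ring
    rw [empty_union, one_mul]
    have := d0 I
    rcases hx with e | e
    · refine (Ex_mono h0.le h1.le W (G := fun J => ((1 - 2 * x) * D K p I + Z x (a I) W J ^ 1) +
        max (|Z x (a I) W J| - 2 * δ * D K p I) 0) fun J hJ => ?_).trans ?_
      · have := neg_abs_le (Z x (a I) W J)
        rw [xe J hJ, pow_one, e]
        refine max_le (le_add_of_nonneg_right (le_max_right _ _)) ?_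
        linarith [le_max_left (|Z (1 / 2 - δ) (a I) W J| - 2 * δ * D K p I) 0, e ▸ this]
      · rw [Ex_add, Ex_add, Ex_const, (mom h0.le h1.le _ (a1 I) W).1, add_zero,
          max_eq_left (by linarith)]
    · rw [max_eq_right (by linarith), zero_mul, zero_add]
      refine Ex_mono h0.le h1.le W fun J hJ => ?_
      rw [xe J hJ]
      refine max_le_max_right _ ?_
      have := le_abs_self (Z x (a I) W J)
      rw [show 1 - 2 * x = -(2 * δ) by linarith]
      linarith
  rw [Ex_union x P W hd]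
  refine (Ex_mono h0.le h1.le P s1).trans ?_
  rw [Ex_lin, ED K P p hp, show D K p ∅ = K.card by simp [D]]
  have E0 : 0 ≤ Ex (1 / 2) P fun I => H (D K p I) δ :=
    (Ex_const _ _ P).ge.trans (Ex_mono (by norm_num) (by norm_num) P fun _ _ => H0 _)
  have b0 : 0 ≤ (1 - x) / (2 * δ) := div_nonneg (by linarith) (by linarith)
  have mk : ∀ r I, 0 ≤ r → Ex r P (fun J => (D K p I)⁻¹ * (D K p I - D K p (I ∪ J))) ≤ r := by
    intro r I hr
    simp only [sub_eq_add_neg, Ex_mul, Ex_add, Ex_const, neg_eq_neg_one_mul (D K p _), ED K P p hp]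
    rcases (d0 I).eq_or_lt with e | e
    · simp [← e, hr]
    · field_simp
      linarith
  have fin : ∀ r, r ≤ 2 * δ → 2 * ((1 - x) / (2 * δ)) * r ≤ 2 * (1 - x) := fun r h =>
    (mul_le_mul_of_nonneg_left h (by linarith)).trans_eq (by field_simp)
  suffices Ex x P g ≤ (1 - x) * (2 + 4 * Ex (1 / 2) P fun I => H (D K p I) δ) by linarith
  rcases hx with e | e
  · have r0 : 0 ≤ δ / (1 - x) := div_nonneg hδ.le (by linarith)
    have r1 : δ / (1 - x) ≤ 2 * δ := by
      rw [div_le_iff₀ (by linarith)]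
      nlinarith
    have t := thin x (δ / (1 - x)) P fun I => H (D K p I) δ
    rw [show 1 - (1 - x) * (1 - δ / (1 - x)) = 1 / 2 by
      have := (sub_pos.2 h1).ne'
      field_simp
      linarith] at t
    have : Ex x P g ≤ 1 * Ex (1 / 2) P (fun I => H (D K p I) δ) + 1 * (2 * (1 - x)) := by
      rw [t, ← Ex_const x (2 * (1 - x)) P, ← Ex_lin]
      refine Ex_mono h0.le h1.le P fun I _ => ?_
      rw [← Ex_const (δ / (1 - x)) (g I) P]
      refine (Ex_mono r0 (by linarith) P fun J _ => pw _ _ _ _ _ (g1 I).1 b0 (H0 _)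
        (D_anti K p I J).1 (D_anti K p I J).2 fun k =>
          (g1 I).2 _ (by linarith [(D_anti K p I J).2, d0 I]) k).trans ?_
      rw [Ex_lin]
      linarith [fin _ r1, mul_le_mul_of_nonneg_left (mk _ I r0) (by linarith : 0 ≤ 2 * ((1 - x) / (2 * δ)))]
    nlinarith
  rcases le_total δ (1 / 4) with q | q
  · have t := thin (1 / 2) (2 * δ) P g
    rw [show 1 - (1 - 1 / 2) * (1 - 2 * δ) = x by linarith] at t
    have : Ex x P g ≤ 1 * Ex (1 / 2) P (fun I => H (D K p I) δ) + 1 * (2 * (1 - x)) := by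
      rw [t, ← Ex_const (1 / 2) (2 * (1 - x)) P, ← Ex_lin]
      refine Ex_mono (by norm_num) (by norm_num) P fun I _ => ?_
      refine (Ex_mono (by linarith) (by linarith) P fun J _ => pw _ _ _ _ _ (g1 (I ∪ J)).1 b0 (H0 _)
        (D_anti K p I J).1 (D_anti K p I J).2 fun k =>
          (g1 (I ∪ J)).2 _ k (by linarith [(D_anti K p I J).2, d0 I])).trans ?_
      rw [Ex_lin, Ex_const]
      linarith [fin _ le_rfl, mul_le_mul_of_nonneg_left (mk (2 * δ) I (by linarith))
        (by linarith : 0 ≤ 2 * ((1 - x) / (2 * δ)))]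
    nlinarith
  · have : Ex x P g ≤ (1 - x) / (2 * δ) :=
      (Ex_mono h0.le h1.le P fun I _ => (g1 I).1).trans (Ex_const _ _ P).le
    have : (1 - x) / (2 * δ) ≤ 2 * (1 - x) := by
      rw [div_le_iff₀ (by linarith)]
      nlinarith
    nlinarith

/-- active children with inactive parent -/
def T (K : Finset V) (p : V → V) (S : Finset V) : ℝ :=
  ∑ v ∈ K, if v ∈ S ∧ p v ∉ S then 1 else 0

theorem drift [Fintype V] (K : Finset V) (p : V → V) (h : ∀ v ∈ K, p v ≠ v) (S : Finset V) :
    ∑ u ∈ Sᶜ, (T K p (insert u S) - T K p S) = X K p S := by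
  simp only [T, ← sum_sub_distrib]
  rw [sum_comm]
  refine sum_congr rfl fun v e => ?_
  have := h v e
  rw [sum_congr rfl (g := fun u => (if v = u then if p v ∈ S then 0 else 1 else 0) +
    if p v = u then if v ∈ S then -1 else 0 else 0) fun u k => by
      rw [mem_compl] at k
      simp only [mem_insert]
      split_ifs <;> first | (norm_num; done) | grind, sum_add_distrib, sum_ite_eq, sum_ite_eq]
  simp only [mem_compl]
  split_ifs <;> norm_num

end

theorem beta (a b : ℕ) : ∫ x in (0 : ℝ)..1, x ^ a * (1 - x) ^ b =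
    (a.factorial * b.factorial : ℝ) / (a + b + 1).factorial := by
  induction b generalizing a with
  | zero =>
    simp [Nat.factorial_succ]
    field_simp
  | succ b ih =>
    have : ∀ x : ℝ, x ^ a * (1 - x) ^ (b + 1) = x ^ a * (1 - x) ^ b - x ^ (a + 1) * (1 - x) ^ b :=
      fun x => by ring
    simp only [this]
    rw [intervalIntegral.integral_sub (Continuous.intervalIntegrable (by fun_prop) _ _)
      (Continuous.intervalIntegrable (by fun_prop) _ _), ih, ih,
      show a + (b + 1) + 1 = a + b + 1 + 1 by ring, show a + 1 + b + 1 = a + b + 1 + 1 by ring]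
    simp only [Nat.factorial_succ _, Nat.cast_mul]
    push_cast
    field_simp
    ring

/-- the active set at time `t` -/
def S {n : ℕ} (σ : Equiv.Perm (Fin n)) (t : ℕ) : Finset (Fin n) := {v | (σ.symm v).val < t}

theorem S_card {n : ℕ} (σ : Equiv.Perm (Fin n)) (t : ℕ) (h : t ≤ n) : (S σ t).card = t := by
  rw [← card_map σ.symm.toEmbedding, show (S σ t).map σ.symm.toEmbedding = univ.filter fun i : Fin n => i.val < t by
    ext i
    simp [S], Fin.card_filter_val_lt, min_eq_right h]

theorem fib {n : ℕ} (t : ℕ) (h : t ≤ n) (F : Finset (Fin n) → ℝ) :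
    ∑ σ, F (S σ t) = t.factorial * (n - t).factorial * ∑ A ∈ powersetCard t univ, F A := by
  have m : ∀ σ ∈ (univ : Finset (Equiv.Perm (Fin n))), S σ t ∈ powersetCard t univ :=
    fun σ _ => by simp [S_card σ t h]
  let c : Finset (Fin n) → ℕ := fun A => #{σ | S σ t = A}
  have c1 : ∀ A B : Finset (Fin n), A.card = B.card → c A ≤ c B := fun A B e => by
    let π := (Fintype.equivOfCardEq (α := {x // x ∈ A}) (β := {x // x ∈ B})
      (by simpa using e)).extendSubtype
    refine card_le_card_of_injOn (π * ·) (fun σ k => ?_) (mul_right_injective π).injOn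
    simp only [coe_filter, mem_univ, true_and, Set.mem_ofPred_eq] at k ⊢
    ext v
    obtain ⟨v, rfl⟩ := π.surjective v
    have : π v ∈ S (π * σ) t ↔ v ∈ A := by simp [← k, S, Equiv.Perm.mul_def]
    rw [this]
    exact ⟨Equiv.extendSubtype_mem _ v, fun l => by_contra fun z =>
      Equiv.extendSubtype_not_mem _ v z l⟩
  have c2 : ∀ A ∈ powersetCard t univ, c A = t.factorial * (n - t).factorial := fun A e => by
    have := card_eq_sum_card_fiberwise m
    rw [sum_congr rfl (g := fun _ => c A) fun B k => le_antisymm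
      (c1 B A (by simp_all)) (c1 A B (by simp_all)), card_univ, Fintype.card_perm, sum_const,
      card_powersetCard, card_univ, Fintype.card_fin, ← Nat.choose_mul_factorial_mul_factorial h,
      mul_assoc] at this
    exact (Nat.eq_of_mul_eq_mul_left (Nat.choose_pos h) this).symm
  rw [← sum_fiberwise_of_maps_to m, mul_sum]
  refine sum_congr rfl fun A e => ?_
  rw [sum_congr rfl (g := fun _ => F A) fun σ k => by rw [(mem_filter.1 k).2], sum_const,
    nsmul_eq_mul, show #_ = c A from rfl, c2 A e]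
  simp

theorem stop {n : ℕ} (A : Equiv.Perm (Fin n) → ℕ) (h1 : ∀ σ, A σ ≤ n)
    (h2 : ∀ σ τ : Equiv.Perm (Fin n), (∀ i : Fin n, i.val < A σ → σ i = τ i) → A τ = A σ)
    (F : Finset (Fin n) → ℝ) (h0 : F ∅ = 0) : ∑ σ, F (S σ (A σ)) ≤
      ∑ t : Fin n, (∑ σ, max (∑ u ∈ (S σ t)ᶜ, (F (insert u (S σ t)) - F (S σ t))) 0) /
        (n - t : ℕ) := by
  have a : ∀ σ, F (S σ (A σ)) = ∑ t : Fin n,
      if t.val < A σ then F (insert (σ t) (S σ t)) - F (S σ t) else 0 := fun σ => by
    have := sum_range_sub (fun t => F (S σ t)) (A σ)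
    rw [show S σ 0 = ∅ by simp [S], h0, sub_zero] at this
    rw [← this, show range (A σ) = {t ∈ range n | t < A σ} by
      ext t
      simpa using fun k => k.trans_le (h1 σ), sum_filter, sum_range]
    refine sum_congr rfl fun t _ => ?_
    congr 3
    ext v
    simp [S, le_iff_eq_or_lt, Fin.val_inj, Equiv.symm_apply_eq]
  simp only [a]
  rw [sum_comm]
  refine sum_le_sum fun t _ => ?_
  rw [le_div_iff₀ (by simp), ← Fin.card_Ici, mul_comm, ← nsmul_eq_mul, ← sum_const,
    sum_congr rfl (g := fun j => ∑ σ, if t.val < A σ then F (insert (σ j) (S σ t)) - F (S σ t)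
      else 0) fun j k => ?_, sum_comm]
  · refine sum_le_sum fun σ _ => ?_
    split_ifs
    · refine le_trans (le_of_eq ?_) (le_max_left _ _)
      exact sum_equiv σ (by simp [S]) fun _ _ => rfl
    · simp
  · rw [← Equiv.sum_comp (Equiv.mulRight (Equiv.swap t j))]
    refine sum_congr rfl fun σ _ => ?_
    rw [mem_Ici] at k
    have b : ∀ i : Fin n, i.val < t → Equiv.swap t j i = i := fun i l =>
      Equiv.swap_apply_of_ne_of_ne (ne_of_lt l) (ne_of_lt (lt_of_lt_of_le l k))
    have c : S (σ * Equiv.swap t j) t = S σ t := by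
      ext v
      simp only [S, Equiv.Perm.mul_def, Equiv.symm_trans_apply, Equiv.symm_swap, mem_filter,
        mem_univ, true_and]
      exact ⟨fun l => by simpa [l] using congrArg (·.val < t.val) (b _ l).symm, fun l => by rwa [b _ l]⟩
    have d : t.val < A (σ * Equiv.swap t j) ↔ t.val < A σ := by
      rw [← not_iff_not, not_lt, not_lt]
      exact ⟨fun l => by rwa [h2 (σ * Equiv.swap t j) σ fun i m => by simp [b i (m.trans_le l)]],
        fun l => by rwa [h2 σ (σ * Equiv.swap t j) fun i m => by simp [b i (m.trans_le l)]]⟩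
    simp [c, d]

theorem cls {n : ℕ} (A : Equiv.Perm (Fin n) → ℕ) (h1 : ∀ σ, A σ ≤ n)
    (h2 : ∀ σ τ : Equiv.Perm (Fin n), (∀ i : Fin n, i.val < A σ → σ i = τ i) → A τ = A σ)
    (W K : Finset (Fin n)) (p : Fin n → Fin n) (hK : K ⊆ W) (hp : ∀ v ∈ K, p v ∈ Wᶜ) :
    (∑ σ, T K p (S σ (A σ))) / n.factorial ≤ K.card / 4 + 1090 := by
  let L : ℝ → ℝ := fun x => ∑ t : Fin n, x ^ t.val * (1 - x) ^ (n - t - 1) *
    ∑ B ∈ powersetCard t univ, max (X K p B) 0
  have Lc : Continuous L := by fun_prop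
  have a : (∑ σ, T K p (S σ (A σ))) / n.factorial ≤ ∫ x in (0 : ℝ)..1, L x := by
    rw [intervalIntegral.integral_finsetSum fun _ _ =>
      Continuous.intervalIntegrable (by fun_prop) _ _, div_le_iff₀ (by positivity), sum_mul]
    refine (stop A h1 h2 _ (by simp [T])).trans (sum_le_sum fun t _ => le_of_eq ?_)
    simp only [drift K p fun v e k => mem_compl.1 (hp v e) (k.symm ▸ hK e)]
    obtain ⟨m, e⟩ : ∃ m, n - t = m + 1 := ⟨n - t - 1, by omega⟩
    rw [fib t t.2.le fun B => max (X K p B) 0, intervalIntegral.integral_mul_const, beta, e,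
      Nat.add_sub_cancel, show t + m + 1 = n by omega, Nat.factorial_succ]
    push_cast
    field_simp
  have b : ∀ x δ, 0 < x → x < 1 → 0 < δ → x = 1 / 2 - δ ∨ x = 1 / 2 + δ → L x ≤
      max (1 - 2 * x) 0 * K.card + 2 + 4 * Ex (1 / 2) Wᶜ fun I => H (D K p I) δ := by
    intro x δ x0 x1 d0 e
    have y := sub_pos.2 x1
    refine le_of_mul_le_mul_left (le_trans ?_ (outer _ W K p disjoint_compl_left hK hp x0 x1 d0 e)) y
    rw [union_comm, union_compl, Ex, sum_powerset, card_univ, Fintype.card_fin, sum_range_succ,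
      mul_sum, sum_range]
    refine le_add_of_le_of_nonneg (sum_le_sum fun t _ => le_of_eq ?_)
      (sum_nonneg fun _ _ => by positivity)
    rw [mul_sum, mul_sum]
    refine sum_congr rfl fun B k => ?_
    rw [(mem_powersetCard.1 k).2, show n - t = n - t - 1 + 1 by omega, Nat.add_sub_cancel]
    ring
  let E : ℝ → ℝ := fun δ => Ex (1 / 2) Wᶜ fun I => 136 * (1 + δ * √(D K p I))⁻¹
  have c : ∀ δ, 0 ≤ δ → HasDerivAt E (-Ex (1 / 2) Wᶜ fun I => H (D K p I) δ) δ := fun δ d0 => by
    simp only [E, Ex, ← sum_neg_distrib]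
    refine HasDerivAt.fun_sum fun I _ => ?_
    refine ((((((hasDerivAt_id' δ).mul_const √(D K p I)).const_add 1).fun_inv
      (by positivity)).const_mul 136).const_mul _).congr_deriv ?_
    rw [H]
    ring
  have d : ∀ δ, 0 ≤ δ → 0 ≤ E δ ∧ E δ ≤ 136 := fun δ d0 =>
    ⟨(Ex_const _ _ _).ge.trans (Ex_mono (by norm_num) (by norm_num) _ fun _ _ => by positivity),
      (Ex_mono (by norm_num) (by norm_num) _ fun I _ => mul_le_of_le_one_right (by norm_num)
        (inv_le_one_of_one_le₀ (le_add_of_nonneg_right (by positivity)))).trans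
          (Ex_const _ _ _).le⟩
  have e1 : ∀ x ∈ Set.Icc (0 : ℝ) (1 / 2), HasDerivAt
      (fun x => (x - x ^ 2) * K.card + 2 * x + 4 * E (1 / 2 - x))
      ((1 - 2 * x) * K.card + 2 + 4 * Ex (1 / 2) Wᶜ fun I => H (D K p I) (1 / 2 - x)) x :=
    fun x k => (((((hasDerivAt_id' x).fun_sub (hasDerivAt_pow 2 x)).mul_const _).fun_add
        ((hasDerivAt_id' x).const_mul 2)).fun_add (((c _ (sub_nonneg.2 k.2)).comp x
          ((hasDerivAt_id' x).const_sub _)).const_mul 4)).congr_deriv (by simp)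
  have e2 : ∀ x ∈ Set.Icc (1 / 2 : ℝ) 1, HasDerivAt (fun x => 2 * x - 4 * E (x - 1 / 2))
      (2 + 4 * Ex (1 / 2) Wᶜ fun I => H (D K p I) (x - 1 / 2)) x := fun x k => by
    have := ((hasDerivAt_id' x).const_mul 2).fun_sub
      (((c _ (sub_nonneg.2 k.1)).comp_sub_const x _).const_mul 4)
    exact this.congr_deriv (by simp)
  have f1 := intervalIntegral.integral_le_sub_of_hasDeriv_right_of_le (by norm_num)
    (fun x k => (e1 x k).continuousAt.continuousWithinAt)
    (fun x k => (e1 x (Set.Ioo_subset_Icc_self k)).hasDerivWithinAt) Lc.integrableOn_Icc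
    fun x k => by
      have := b x (1 / 2 - x) k.1 (by linarith [k.2]) (by linarith [k.2]) (.inl (by ring))
      rwa [max_eq_left (by linarith [k.2])] at this
  have f2 := intervalIntegral.integral_le_sub_of_hasDeriv_right_of_le (by norm_num)
    (fun x k => (e2 x k).continuousAt.continuousWithinAt)
    (fun x k => (e2 x (Set.Ioo_subset_Icc_self k)).hasDerivWithinAt) Lc.integrableOn_Icc
    fun x k => by
      have := b x (x - 1 / 2) (by linarith [k.1]) k.2 (by linarith [k.1]) (.inr (by ring))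
      rwa [max_eq_right (by linarith [k.1]), zero_mul, zero_add] at this
  rw [← intervalIntegral.integral_add_adjacent_intervals (b := 1 / 2)
    (Lc.intervalIntegrable _ _) (Lc.intervalIntegrable _ _)] at a
  have := d 0 le_rfl
  have := d (1 / 2) (by norm_num)
  norm_num at *
  linarith

/-- number of components of the subgraph induced by the first `t` vertices -/
noncomputable def CC {n : ℕ} (G : SimpleGraph (Fin n)) (σ : Equiv.Perm (Fin n)) (t : ℕ) : ℕ :=
  Nat.card (G.induce {v | ∃ i : Fin n, i.val < t ∧ σ i = v}).ConnectedComponent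

theorem result : ∃ N : ℤ, ∀ (n : ℕ) (G : SimpleGraph (Fin n)), G.IsTree →
    ∀ A : Equiv.Perm (Fin n) → ℕ, (∀ σ, 1 ≤ A σ ∧ A σ ≤ n) →
    (∀ σ τ : Equiv.Perm (Fin n), (∀ i : Fin n, i.val < A σ → σ i = τ i) → A τ = A σ) →
    (∑ σ, (CC G σ (A σ) : ℝ)) / n.factorial ≤ n / 4 + N := by
  refine ⟨2181, fun n G hG A h1 h2 => ?_⟩
  obtain ⟨r⟩ := hG.1.nonempty
  have : ∀ v, ∃ u, v ≠ r → G.Adj v u ∧ G.dist u r + 1 = G.dist v r := fun v => by
    obtain ⟨w, h⟩ := hG.1.exists_walk_length_eq_dist v r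
    cases w with
    | nil => exact ⟨r, fun e => absurd rfl e⟩
    | @cons _ u _ a w =>
      have := hG.1.dist_triangle (u := v) (v := u) (w := r)
      have := G.dist_le w
      have := SimpleGraph.dist_eq_one_iff_adj.2 a
      rw [SimpleGraph.Walk.length_cons] at h
      exact ⟨u, fun _ => ⟨a, by omega⟩⟩
  choose p hp using this
  let K : ℕ → Finset (Fin n) := fun c => {v | v ≠ r ∧ G.dist v r % 2 = c}
  have a : ∀ c, (∑ σ, T (K c) p (S σ (A σ))) / n.factorial ≤ (K c).card / 4 + 1090 := fun c =>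
    cls A (fun σ => (h1 σ).2) h2 {v | G.dist v r % 2 = c} _ p (fun v => by simp [K])
      fun v e => by
        simp only [K, mem_filter, mem_univ, true_and, mem_compl] at e ⊢
        have := (hp v e.1).2
        omega
  have b : (K 0).card + (K 1).card ≤ n := by
    rw [← card_union_of_disjoint (disjoint_left.2 fun v => by simp +contextual [K])]
    simpa using card_le_univ (K 0 ∪ K 1)
  have c : ∀ σ t, (CC G σ t : ℝ) ≤ 1 + (T (K 0) p (S σ t) + T (K 1) p (S σ t)) := fun σ t => by
    have m : ∀ v, (∃ i : Fin n, i.val < t ∧ σ i = v) ↔ v ∈ S σ t := fun v =>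
      ⟨fun ⟨i, e, k⟩ => by simpa [S, ← k], fun e => ⟨σ.symm v, by simpa [S] using e, by simp⟩⟩
    let U : Finset (Fin n) := {v ∈ S σ t | v = r ∨ p v ∉ S σ t}
    have u : CC G σ t ≤ U.card := by
      rw [← Nat.card_eq_finsetCard]
      refine Nat.card_le_card_of_surjective (fun u : U => SimpleGraph.connectedComponentMk _
        ⟨u.1, (m _).2 (mem_filter.1 u.2).1⟩) fun C => ?_
      obtain ⟨⟨v, hv⟩, rfl⟩ := C.exists_rep
      induction' e : G.dist v r using Nat.strong_induction_on with k ih generalizing v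
      by_cases l : v = r ∨ p v ∉ S σ t
      · exact ⟨⟨v, mem_filter.2 ⟨(m _).1 hv, l⟩⟩, rfl⟩
      · push Not at l
        obtain ⟨u, hu⟩ := ih _ (by have := (hp v l.1).2; omega) (p v) ((m _).2 l.2) rfl
        exact ⟨u, hu.trans (SimpleGraph.ConnectedComponent.sound
          (SimpleGraph.Adj.reachable (hp v l.1).1.symm))⟩
    refine (Nat.cast_le.2 u).trans ?_
    simp only [U, K, T, sum_filter, card_filter, Nat.cast_sum, ← sum_add_distrib]
    rw [show (1 : ℝ) = ∑ v, if v = r then 1 else 0 by simp, ← sum_add_distrib,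
      ← univ_inter (S σ t), ← sum_ite_mem, univ_inter]
    refine sum_le_sum fun v _ => ?_
    have := Nat.mod_two_eq_zero_or_one (G.dist v r)
    split_ifs <;> first | (norm_num; done) | grind
  have d := sum_le_sum fun σ (_ : σ ∈ univ) => c σ (A σ)
  rw [sum_add_distrib, sum_add_distrib, sum_const, card_univ, Fintype.card_perm,
    Fintype.card_fin, nsmul_eq_mul, mul_one] at d
  have := a 0
  have := a 1
  have : ((K 0).card + (K 1).card : ℝ) ≤ n := by exact_mod_cast b
  have := div_le_div_of_nonneg_right d (Nat.cast_nonneg n.factorial)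
  rw [add_div, add_div, div_self (by positivity)] at this
  push_cast
  linarith

end Pool.Agent.Results.MP_1fe8eb_co.Const
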